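import Mathlib
import Pool.Agent.Lib.MP_af71ff_an.NotSim
import Pool.Agent.Lib.MP_af71ff_an.Cont
import Pool.Agent.Lib.MP_af71ff_an.Literal

/-!
# A weakly homogeneous operator with a uniformly bounded homomorphic intertwiner that is not similar
to a homogeneous operator

The operator is the block weighted shift `T` on `ℓ²(ℤ) ⊗ ℂ³` with weights `exp (N / (n + 1/2))`,
`N` the nilpotent Jordan block of size three (a second order jet of the principal series at
`s = 1/2`).  The intertwiner is built in `Pool/Agent/Lib/MP_af71ff_an/Space.lean`, the proof that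
`T` is not similar to a homogeneous operator ends in `Pool/Agent/Lib/MP_af71ff_an/NotSim.lean`.
The file `Pool/Agent/Lib/MP_af71ff_an/Literal.lean` records that the order of composition printed in
the problem file (`φ(T) = Γ(φ) T Γ(φ)⁻¹` together with `Γ(φ ∘ ψ) = Γ(φ) Γ(ψ)`) is contradictory on
every nonzero space, so that the order used in the literature, and here, is the intended one.
-/

set_option autoImplicit false

namespace Pool.Agent.Results.MP_af71ff_an.WeaklyHomogeneous

open MPaf71ff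

/-- the intertwiner as a family of invertible operators -/
noncomputable def Gam (φ : Mob) : (MPaf71ff.H →L[ℂ] MPaf71ff.H)ˣ :=
  ⟨φ.G0i, φ.G0, φ.G0i_mul_G0, φ.G0_mul_G0i⟩

/-- There are a separable Hilbert space `H`, a bounded operator `T` on `H` with spectrum in the
closed unit disc and invertible operators `Γ φ`, one for each disc automorphism `φ`, such that
`φ(T) = (Γ φ)⁻¹ T (Γ φ)`, `Γ (φ ∘ ψ) = (Γ φ) (Γ ψ)`, the norms of `Γ φ` and `(Γ φ)⁻¹` are bounded
independently of `φ` and `Γ` is strongly continuous, while `T` is not similar to any homogeneous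
operator. -/
theorem result : ∃ (H : Type) (_ : NormedAddCommGroup H) (_ : InnerProductSpace ℂ H)
    (_ : CompleteSpace H) (_ : TopologicalSpace.SeparableSpace H) (T : H →L[ℂ] H)
    (Γ : Mob → (H →L[ℂ] H)ˣ),
    spectrum ℂ T ⊆ Metric.closedBall 0 1 ∧ IsIntertwiner T Γ ∧ IsHom Γ ∧
    IsUniformlyBounded Γ ∧ IsStronglyContinuous Γ ∧
    ∀ S : H →L[ℂ] H, IsHomogeneous S → ¬ IsSimilar T S := by
  refine ⟨MPaf71ff.H, inferInstance, inferInstance, inferInstance, inferInstance, MPaf71ff.T, Gam,
    T_spectrum, fun φ => φ.op_T, fun φ ψ χ h => ?_, ⟨51, fun φ => ⟨φ.G0i_norm, φ.G0_norm⟩⟩,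
    fun f φ h1 h2 x => Mob.Conv.G0i ⟨h1, h2⟩ x, ?_⟩
  · have h1 : χ.G0 = ψ.G0 * φ.G0 := Mob.IsComp.G0 (χ := χ) (ψ := φ) (φ := ψ) h
    rw [← inv_inj, mul_inv_rev]
    apply Units.ext
    exact h1
  · rintro S ⟨_, hS⟩ ⟨X, hX⟩
    refine no_sim MPaf71ff.H
      ⟨ContinuousLinearEquiv.unitsEquiv ℂ MPaf71ff.H X, S, fun x => ?_, hS⟩
    have h1 : (X : MPaf71ff.H →L[ℂ] MPaf71ff.H) * S = MPaf71ff.T * X := by
      rw [hX, mul_assoc, Units.inv_mul, mul_one]
    exact congrArg (fun F : MPaf71ff.H →L[ℂ] MPaf71ff.H => F x) h1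

end Pool.Agent.Results.MP_af71ff_an.WeaklyHomogeneous
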